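import Pool.Agent.V5helper50.RC.Stm

/-!
# Project RC, job BND2: crude upper bounds with high probability
-/

set_option autoImplicit false

open Finset

namespace Pool.Agent.V5helper43.RC

open Pool.Agent.V5helper50.RC
open Pool.Agent.V5helper50.RS (pr Tk av pr_mono pr_or pr_union av_const Tk_pos)

theorem R_congr {k : ℕ} {q : ℕ → ℕ} {j n u : ℕ} {t t' : ℕ → ℕ} (h : ∀ y < n, t y = t' y) :
    R k q t j n u = R k q t' j n u := by
  unfold R
  congr 1
  refine filter_congr fun x hx => ?_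
  rw [Fintype.mem_piFinset] at hx
  have : ∀ i, A k q t (x i) = A k q t' (x i) := fun i => by
    unfold A
    rw [h _ (mem_range.1 (hx i))]
  simp only [this]

theorem F_congr {k : ℕ} {q : ℕ → ℕ} {j u x : ℕ} {t t' : ℕ → ℕ} (h : ∀ y ≤ x, t y = t' y) :
    F k q j u x t = F k q j u x t' := by
  unfold F
  have ha : A k q t x = A k q t' x := by
    unfold A
    rw [h x le_rfl]
  refine sum_congr rfl fun i _ => ?_
  rw [ha, R_congr (t := t) (t' := t') fun y hy => h y hy.le]

theorem F_nonneg (k : ℕ) (q : ℕ → ℕ) (j u x : ℕ) (t : ℕ → ℕ) : 0 ≤ F k q j u x t := by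
  unfold F
  refine sum_nonneg fun i _ => mul_nonneg (Nat.cast_nonneg _) ?_
  split_ifs
  · exact Nat.cast_nonneg _
  · exact le_rfl

theorem R_zero_le (k : ℕ) (q t : ℕ → ℕ) (n u : ℕ) : R k q t 0 n u ≤ 1 := by
  unfold R
  refine (card_filter_le _ _).trans ?_
  rw [Fintype.card_piFinset]
  simp

theorem ell_one {L : ℕ} (hL : 1 ≤ L) : (1 : ℝ) ≤ 1 + Real.log L := by
  have : 0 ≤ Real.log L := Real.log_nonneg (by exact_mod_cast hL)
  linarith

theorem mx_mono {k L i j : ℕ} (hL : 1 ≤ L) (h : i ≤ j) :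
    max 1 ((L : ℝ) ^ i / (L : ℝ) ^ k) ≤ max 1 ((L : ℝ) ^ j / (L : ℝ) ^ k) := by
  have hL1 : (1 : ℝ) ≤ L := by exact_mod_cast hL
  refine max_le_max le_rfl ?_
  exact div_le_div_of_nonneg_right (pow_le_pow_right₀ hL1 h) (by positivity)

theorem Bd_mono {k L i j : ℕ} {C C' : ℝ} (hL : 1 ≤ L) (h : i ≤ j) (hC : 0 ≤ C) (hCC : C ≤ C') :
    Bd k C i L ≤ Bd k C' j L := by
  unfold Bd
  have h1 := ell_one hL
  have h2 : (1 + Real.log L) ^ (2 * i) ≤ (1 + Real.log L) ^ (2 * j) :=
    pow_le_pow_right₀ h1 (by omega)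
  have h3 : (0 : ℝ) ≤ (1 + Real.log L) ^ (2 * i) := by positivity
  have h4 : (0 : ℝ) ≤ max 1 ((L : ℝ) ^ i / (L : ℝ) ^ k) := zero_le_one.trans (le_max_left _ _)
  refine mul_le_mul (mul_le_mul hCC h2 h3 (hC.trans hCC)) (mx_mono hL h) h4 ?_
  exact mul_nonneg (hC.trans hCC) (h3.trans h2)

theorem Bd_pos {k L j : ℕ} {C : ℝ} (hL : 1 ≤ L) (hC : 0 < C) : 0 < Bd k C j L := by
  unfold Bd
  have h1 := ell_one hL
  have h3 : (0 : ℝ) < (1 + Real.log L) ^ (2 * j) := by positivity
  have h4 : (0 : ℝ) < max 1 ((L : ℝ) ^ j / (L : ℝ) ^ k) := zero_lt_one.trans_le (le_max_left _ _)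
  positivity

theorem exp_le {k L : ℕ} (hL : 1 ≤ L) :
    (((L + 2) * ((L + 1) ^ k + 1) : ℕ) : ℝ) * Real.exp (-((k + 4 : ℕ) * (1 + Real.log L))) ≤
      4 / (L : ℝ) ^ 2 := by
  have hL1 : (1 : ℝ) ≤ L := by exact_mod_cast hL
  have hL0 : (0 : ℝ) < L := by linarith
  have h1 : Real.exp (1 + Real.log L) = Real.exp 1 * L := by
    rw [Real.exp_add, Real.exp_log hL0]
  have h2 : (L : ℝ) + 1 ≤ Real.exp (1 + Real.log L) := by
    rw [h1]
    have := Real.add_one_le_exp (1 : ℝ)
    nlinarith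
  have h3 : Real.exp (-((k + 4 : ℕ) * (1 + Real.log L))) ≤ 1 / ((L : ℝ) + 1) ^ (k + 4) := by
    rw [Real.exp_neg, Real.exp_nat_mul, ← one_div]
    exact one_div_le_one_div_of_le (by positivity) (pow_le_pow_left₀ (by positivity) h2 _)
  have h4 : (((L + 2) * ((L + 1) ^ k + 1) : ℕ) : ℝ) ≤ 4 * ((L : ℝ) + 1) ^ (k + 1) := by
    push_cast
    have h5 : (1 : ℝ) ≤ ((L : ℝ) + 1) ^ k := one_le_pow₀ (by linarith)
    have h6 : ((L : ℝ) + 1) ^ (k + 1) = ((L : ℝ) + 1) ^ k * ((L : ℝ) + 1) := pow_succ _ _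
    rw [h6]
    nlinarith
  calc (((L + 2) * ((L + 1) ^ k + 1) : ℕ) : ℝ) * Real.exp (-((k + 4 : ℕ) * (1 + Real.log L)))
      ≤ 4 * ((L : ℝ) + 1) ^ (k + 1) * (1 / ((L : ℝ) + 1) ^ (k + 4)) :=
        mul_le_mul h4 h3 (Real.exp_pos _).le (by positivity)
    _ = 4 / ((L : ℝ) + 1) ^ 3 := by
        have h7 : ((L : ℝ) + 1) ^ (k + 4) = ((L : ℝ) + 1) ^ (k + 1) * ((L : ℝ) + 1) ^ 3 := by
          rw [← pow_add]
        rw [h7]
        have h8 : ((L : ℝ) + 1) ^ (k + 1) ≠ 0 := by positivity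
        have h9 : ((L : ℝ) + 1) ^ 3 ≠ 0 := by positivity
        field_simp
    _ ≤ 4 / (L : ℝ) ^ 2 := by
        refine div_le_div_of_nonneg_left (by norm_num) (by positivity) ?_
        nlinarith [sq_nonneg (L : ℝ)]

theorem t_BND2 : S_BND2 := by
  classical
  intro hCHU hREC hMA hMC k K q j hk hq
  induction j with
  | zero =>
    refine ⟨1, le_rfl, fun L hL => ?_⟩
    have hL1 : (1 : ℝ) ≤ L := by exact_mod_cast hL
    refine le_trans (pr_mono (Tk_pos k) (L + 1) (E' := fun _ => False) fun t _ h => ?_) ?_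
    · obtain ⟨i, hi, n, hn, u, hu, h⟩ := h
      obtain rfl : i = 0 := by omega
      have h1 : (R k q t 0 n u : ℝ) ≤ 1 := by exact_mod_cast R_zero_le k q t n u
      have h2 : (1 : ℝ) ≤ Bd k 1 0 L := by
        unfold Bd
        rw [mul_zero, pow_zero, mul_one, one_mul]
        exact le_max_left _ _
      linarith
    · have : pr (Tk k) (L + 1) (fun _ => False) = 0 := by
        unfold pr
        simp only [if_false]
        exact av_const (Tk_pos k) _ _
      rw [this]
      positivity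
  | succ j ih =>
    obtain ⟨C₁, hC₁, h1⟩ := ih
    obtain ⟨Cm, hCm, hm⟩ := hMC k K q (j + 1) hk (by omega) hq
    have hC₁0 : (0 : ℝ) < C₁ := by linarith
    set C₂ : ℝ := C₁ + 4 + 2 * Cm + ((k + 4 : ℕ) : ℝ) * 2 ^ (j + 1) * C₁ with hC₂
    have hp : (0 : ℝ) ≤ ((k + 4 : ℕ) : ℝ) * 2 ^ (j + 1) * C₁ := by positivity
    have hC12 : C₁ + 4 ≤ C₂ := by rw [hC₂]; linarith
    refine ⟨C₂, by linarith, fun L hL => ?_⟩
    have hL1 : (1 : ℝ) ≤ L := by exact_mod_cast hL
    have hL0 : (0 : ℝ) < L := by linarith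
    have hell := ell_one hL
    have hell0 : (0 : ℝ) < 1 + Real.log L := by linarith
    set B : ℝ := 2 ^ (j + 1) * Bd k C₁ j L with hB
    have hB0 : 0 < B := mul_pos (by positivity) (Bd_pos hL hC₁0)
    set lam : ℝ := (k + 4 : ℕ) * (1 + Real.log L) with hlam
    set mu : ℝ := Cm * (1 + Real.log L) * max 1 ((L : ℝ) ^ (j + 1) / (L : ℝ) ^ k) with hmu
    -- the main inequality
    have hmain : 2 * mu + lam * B ≤ Bd k C₂ (j + 1) L := by
      set X : ℝ := max 1 ((L : ℝ) ^ (j + 1) / (L : ℝ) ^ k) with hX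
      have hX0 : 0 < X := zero_lt_one.trans_le (le_max_left _ _)
      have hx : max 1 ((L : ℝ) ^ j / (L : ℝ) ^ k) ≤ X := mx_mono hL (Nat.le_succ j)
      have e1 : (1 + Real.log L) ≤ (1 + Real.log L) ^ (2 * (j + 1)) := by
        calc (1 + Real.log L) = (1 + Real.log L) ^ 1 := (pow_one _).symm
          _ ≤ (1 + Real.log L) ^ (2 * (j + 1)) := pow_le_pow_right₀ hell (by omega)
      have e1' : (1 + Real.log L) ^ (2 * j + 1) ≤ (1 + Real.log L) ^ (2 * (j + 1)) :=
        pow_le_pow_right₀ hell (by omega)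
      have e2 : lam * B ≤ ((k + 4 : ℕ) : ℝ) * 2 ^ (j + 1) * C₁ *
          (1 + Real.log L) ^ (2 * (j + 1)) * X := by
        rw [hlam, hB]
        unfold Bd
        have e3 : ((k + 4 : ℕ) : ℝ) * (1 + Real.log L) * (2 ^ (j + 1) *
            (C₁ * (1 + Real.log L) ^ (2 * j) * max 1 ((L : ℝ) ^ j / (L : ℝ) ^ k))) =
            ((k + 4 : ℕ) : ℝ) * 2 ^ (j + 1) * C₁ * (1 + Real.log L) ^ (2 * j + 1) *
              max 1 ((L : ℝ) ^ j / (L : ℝ) ^ k) := by ring
        rw [e3]
        refine mul_le_mul (mul_le_mul_of_nonneg_left e1' hp) hx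
          (zero_le_one.trans (le_max_left _ _)) (mul_nonneg hp (by positivity))
      have e4 : 2 * mu ≤ 2 * Cm * (1 + Real.log L) ^ (2 * (j + 1)) * X := by
        have : 2 * Cm * (1 + Real.log L) * X ≤ 2 * Cm * (1 + Real.log L) ^ (2 * (j + 1)) * X :=
          mul_le_mul_of_nonneg_right (mul_le_mul_of_nonneg_left e1 (by positivity)) hX0.le
        rw [hmu]
        linarith
      have e5 : Bd k C₂ (j + 1) L = C₂ * (1 + Real.log L) ^ (2 * (j + 1)) * X := rfl
      rw [e5]
      calc 2 * mu + lam * B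
          ≤ 2 * Cm * (1 + Real.log L) ^ (2 * (j + 1)) * X +
            ((k + 4 : ℕ) : ℝ) * 2 ^ (j + 1) * C₁ * (1 + Real.log L) ^ (2 * (j + 1)) * X :=
            add_le_add e4 e2
        _ = (2 * Cm + ((k + 4 : ℕ) : ℝ) * 2 ^ (j + 1) * C₁) *
            (1 + Real.log L) ^ (2 * (j + 1)) * X := by ring
        _ ≤ C₂ * (1 + Real.log L) ^ (2 * (j + 1)) * X := by
            refine mul_le_mul_of_nonneg_right (mul_le_mul_of_nonneg_right ?_ (by positivity)) hX0.le
            rw [hC₂]
            linarith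
    -- the functions
    let f : ℕ × ℕ → ℕ → (ℕ → ℕ) → ℝ := fun p x t =>
      if x < p.1 then F k q (j + 1) p.2 x t else 0
    set S : Finset (ℕ × ℕ) := range (L + 2) ×ˢ range ((L + 1) ^ k + 1) with hS
    have hcard : (S.card : ℝ) = (((L + 2) * ((L + 1) ^ k + 1) : ℕ) : ℝ) := by
      rw [hS, card_product, card_range, card_range]
    have hf : ∀ p ∈ S, pr (Tk k) (L + 1) (fun t => (∀ x < L + 1, f p x t ≤ B) ∧
        2 * mu + lam * B ≤ ∑ x ∈ range (L + 1), f p x t) ≤ Real.exp (-lam) := by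
      intro p hp'
      rw [hS, mem_product, mem_range, mem_range] at hp'
      obtain ⟨hp1, hp2⟩ := hp'
      refine hCHU (Tk k) (Tk_pos k) (L + 1) (f p) B lam mu hB0 ?_ ?_ ?_
      · intro x _ t
        simp only [f]
        split_ifs
        · exact F_nonneg _ _ _ _ _ _
        · exact le_rfl
      · intro x _ t t' h
        simp only [f]
        split_ifs
        · exact F_congr h
        · rfl
      · intro t ht
        have g1 : ∀ x ∈ range (L + 1), (∑ v ∈ range (Tk k x), f p x (Function.update t x v)) /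
            Tk k x ≤ if x < p.1 then m k q t (j + 1) p.2 x else 0 := by
          intro x _
          simp only [f]
          split_ifs
          · exact hMA k K q (j + 1) p.2 x hk hq (by omega) t ht
          · simp
        refine (sum_le_sum g1).trans ?_
        have g2 : ∑ x ∈ range (L + 1), (if x < p.1 then m k q t (j + 1) p.2 x else 0) =
            ∑ x ∈ range p.1, m k q t (j + 1) p.2 x := by
          rw [← sum_filter]
          refine sum_congr ?_ fun _ _ => rfl
          ext x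
          simp only [mem_filter, mem_range]
          omega
        rw [g2]
        exact hm L p.2 p.1 hL (by omega) t ht
    have hsub : pr (Tk k) (L + 1) (fun t => ∃ i ≤ j + 1, ∃ n ≤ L + 1, ∃ u ≤ (L + 1) ^ k,
        Bd k C₂ i L < (R k q t i n u : ℝ)) ≤
        pr (Tk k) (L + 1) (fun t => (∃ i ≤ j, ∃ n ≤ L + 1, ∃ u ≤ (L + 1) ^ k,
          Bd k C₁ i L < (R k q t i n u : ℝ)) ∨ ∃ p ∈ S, (∀ x < L + 1, f p x t ≤ B) ∧
            2 * mu + lam * B ≤ ∑ x ∈ range (L + 1), f p x t) := by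
      refine pr_mono (Tk_pos k) _ fun t ht h => ?_
      by_cases hE : ∃ i ≤ j, ∃ n ≤ L + 1, ∃ u ≤ (L + 1) ^ k, Bd k C₁ i L < (R k q t i n u : ℝ)
      · exact Or.inl hE
      · right
        obtain ⟨i, hi, n, hn, u, hu, h⟩ := h
        have hE' : ∀ i ≤ j, ∀ n ≤ L + 1, ∀ u ≤ (L + 1) ^ k, (R k q t i n u : ℝ) ≤ Bd k C₁ i L := by
          intro i hi n hn u hu
          by_contra hc
          exact hE ⟨i, hi, n, hn, u, hu, not_le.1 hc⟩
        have hij : i = j + 1 := by
          by_contra hne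
          have hi' : i ≤ j := by omega
          have h2 := hE' i hi' n hn u hu
          have h3 : Bd k C₁ i L ≤ Bd k C₂ i L := Bd_mono hL le_rfl hC₁0.le (by linarith)
          linarith
        subst hij
        refine ⟨(n, u), ?_, ?_, ?_⟩
        · rw [hS, mem_product, mem_range, mem_range]
          exact ⟨by simp only; omega, by simp only; omega⟩
        · intro x hx
          simp only [f]
          split_ifs
          · unfold F
            have h4 : ∀ i ∈ Icc 1 (j + 1), ((j + 1).choose i : ℝ) *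
                (if i * A k q t x ≤ u then (R k q t (j + 1 - i) x (u - i * A k q t x) : ℝ) else 0) ≤
                ((j + 1).choose i : ℝ) * Bd k C₁ j L := by
              intro i hi
              rw [mem_Icc] at hi
              refine mul_le_mul_of_nonneg_left ?_ (Nat.cast_nonneg _)
              split_ifs
              · exact (hE' (j + 1 - i) (by omega) x (by omega) _ (by omega)).trans
                  (Bd_mono hL (by omega) hC₁0.le le_rfl)
              · exact (Bd_pos hL hC₁0).le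
            refine (sum_le_sum h4).trans ?_
            rw [← sum_mul, hB]
            refine mul_le_mul_of_nonneg_right ?_ (Bd_pos hL hC₁0).le
            have h5 : ∑ i ∈ range (j + 1 + 1), ((j + 1).choose i : ℝ) = 2 ^ (j + 1) := by
              exact_mod_cast Nat.sum_range_choose (j + 1)
            rw [← h5]
            refine sum_le_sum_of_subset_of_nonneg (fun i hi => ?_) fun _ _ _ => Nat.cast_nonneg _
            rw [mem_Icc] at hi
            rw [mem_range]
            omega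
          · exact hB0.le
        · have h6 : ∑ x ∈ range (L + 1), f (n, u) x t = ∑ x ∈ range n, F k q (j + 1) u x t := by
            simp only [f]
            rw [← sum_filter]
            refine sum_congr ?_ fun _ _ => rfl
            ext x
            simp only [mem_filter, mem_range]
            omega
          rw [h6, ← hREC k q t (j + 1) n u (by omega)]
          linarith
    refine hsub.trans ((pr_or (Tk_pos k) _ _ _).trans ?_)
    have h10 : pr (Tk k) (L + 1) (fun t => ∃ p ∈ S, (∀ x < L + 1, f p x t ≤ B) ∧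
            2 * mu + lam * B ≤ ∑ x ∈ range (L + 1), f p x t) ≤ 4 / (L : ℝ) ^ 2 := by
      refine (pr_union (Tk_pos k) (L + 1) S _).trans ((sum_le_sum hf).trans ?_)
      rw [sum_const, nsmul_eq_mul, hcard, hlam]
      exact exp_le hL
    calc _ ≤ C₁ / (L : ℝ) ^ 2 + 4 / (L : ℝ) ^ 2 := add_le_add (h1 L hL) h10
      _ = (C₁ + 4) / (L : ℝ) ^ 2 := by ring
      _ ≤ C₂ / (L : ℝ) ^ 2 := div_le_div_of_nonneg_right hC12 (by positivity)

end Pool.Agent.V5helper43.RC
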